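import Pool.Agent.V11259.SolG

/-!
# It is decidable whether an abelian cellular automaton has a soliton
-/

namespace Pool.Agent.Results.MP_5c31ca_lc.AbelianSolitons

/-- The abelian cellular automaton `F(x)_i = ∑_{j=-r}^{r} h_j(x_{i+j})`; the endomorphism `h_j` is
stored at the index `j + r` of `Fin (2 * r + 1)`. -/
def caMap {A : Type} [AddCommGroup A] (r : ℕ) (h : Fin (2 * r + 1) → (A →+ A))
    (x : ℤ → A) : ℤ → A :=
  fun i => ∑ j : Fin (2 * r + 1), h j (x (i + (((j : ℕ) : ℤ) - (r : ℤ))))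

/-- `Δ(x, y)` is the set of positions at which `x` and `y` differ. -/
def Diff {A : Type} (x y : ℤ → A) : Set ℤ := {i | x i ≠ y i}

/-- `F` has a soliton: a pair `x ≠ y` with finite `Δ(x, y)` such that the diameters of all the
sets `Δ(F^t(x), F^t(y))` are bounded by one number `D`. -/
def HasSoliton {A : Type} (F : (ℤ → A) → (ℤ → A)) : Prop :=
  ∃ x y : ℤ → A, x ≠ y ∧ (Diff x y).Finite ∧ ∃ D : ℕ, ∀ t : ℕ,
    ∀ i ∈ Diff (F^[t] x) (F^[t] y), ∀ j ∈ Diff (F^[t] x) (F^[t] y), |i - j| ≤ (D : ℤ)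

/-- The description of an abelian cellular automaton, once the elements of the alphabet are
numbered `0, …, m - 1` by `φ`: the radius, the addition table of the group (row by row), and the
tables of the `2r + 1` endomorphisms. -/
def code {A : Type} [AddCommGroup A] {m : ℕ} (φ : A ≃ Fin m) (r : ℕ)
    (h : Fin (2 * r + 1) → (A →+ A)) : ℕ × List (List ℕ) × List (List ℕ) :=
  (r, List.ofFn (fun a : Fin m => List.ofFn fun b : Fin m =>
      ((φ (φ.symm a + φ.symm b) : Fin m) : ℕ)),
    List.ofFn (fun j : Fin (2 * r + 1) => List.ofFn fun a : Fin m =>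
      ((φ (h j (φ.symm a)) : Fin m) : ℕ)))

open Pool.Agent.V11259.Sol in
theorem lk_ofFn {n m : ℕ} (f : Fin n → Fin m → ℕ) (a : Fin n) (b : Fin m) :
    lk (List.ofFn fun a => List.ofFn fun b => f a b) a b = f a b := by
  have e : (List.ofFn fun a => List.ofFn fun b => f a b).getD a [] = List.ofFn fun b => f a b := by
    rw [List.getD_eq_getElem _ _ (by rw [List.length_ofFn]; exact a.2), List.getElem_ofFn]
  unfold lk
  rw [e, List.getD_eq_getElem _ _ (by rw [List.length_ofFn]; exact b.2), List.getElem_ofFn]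

/-- There is an algorithm, in fact a primitive recursive one, which decides for every abelian
cellular automaton whether it has a soliton. -/
theorem result :
    ∃ P : ℕ × List (List ℕ) × List (List ℕ) → Prop, PrimrecPred P ∧
      ∀ (A : Type) [AddCommGroup A] (m : ℕ) (φ : A ≃ Fin m) (r : ℕ)
        (h : Fin (2 * r + 1) → (A →+ A)),
        P (code φ r h) ↔ HasSoliton (caMap r h) := by
  classical
  refine ⟨Pool.Agent.V11259.Sol.Dec, Pool.Agent.V11259.Sol.primrec_Dec, ?_⟩
  intro A _ m φ r h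
  letI : Fintype A := Fintype.ofEquiv (Fin m) φ.symm
  have hcard : Fintype.card A = m := by
    rw [Fintype.card_congr φ, Fintype.card_fin]
  obtain ⟨h', hh'⟩ : ∃ h' : ℕ → (A →+ A), ∀ j : Fin (2 * r + 1), h' j = h j :=
    ⟨fun j => if hj : j < 2 * r + 1 then h ⟨j, hj⟩ else 0, fun j => dif_pos j.2⟩
  have hF : (Pool.Agent.V11259.Sol.ca r h' : (ℤ → A) → (ℤ → A)) = caMap r h := by
    funext x i
    rw [Pool.Agent.V11259.Sol.ca_apply, Finset.sum_range]
    refine Finset.sum_congr rfl fun j _ => ?_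
    rw [hh' j, add_sub_assoc]
  have h1 : Pool.Agent.V11259.Sol.Dec (code φ r h) ↔
      Pool.Agent.V11259.Sol.Sol (Pool.Agent.V11259.Sol.ca r h') := by
    refine Pool.Agent.V11259.Sol.dec_iff (fun a => ((φ a : Fin m) : ℕ)) ?_ ?_ ?_ ?_ ?_ ?_
    · intro a b hab
      exact φ.injective (Fin.ext hab)
    · intro a
      rw [hcard]; exact (φ a).2
    · intro n hn
      rw [hcard] at hn
      exact ⟨φ.symm ⟨n, hn⟩, by simp⟩
    · rw [List.length_ofFn, hcard]
    · intro a b
      rw [lk_ofFn (fun a b : Fin m => ((φ (φ.symm a + φ.symm b) : Fin m) : ℕ)) (φ a) (φ b),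
        φ.symm_apply_apply, φ.symm_apply_apply]
    · intro j hj a
      have := lk_ofFn (fun (j : Fin (2 * r + 1)) (a : Fin m) => ((φ (h j (φ.symm a)) : Fin m) : ℕ))
        ⟨j, hj⟩ (φ a)
      rw [φ.symm_apply_apply] at this
      rw [hh' ⟨j, hj⟩]
      exact this
  rw [h1, hF]
  constructor
  · rintro ⟨x, y, hxy, hfin, D, hD⟩
    exact ⟨x, y, hxy, hfin, D, fun t i hi j hj => hD t i j hi hj⟩
  · rintro ⟨x, y, hxy, hfin, D, hD⟩
    exact ⟨x, y, hxy, hfin, D, fun t i j hi hj => hD t i hi j hj⟩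

end Pool.Agent.Results.MP_5c31ca_lc.AbelianSolitons
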